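import Pool.Agent.X290.FM2.Main2
/-!
# Two-adic representations unramified outside `2` and a prime `q` congruent to `3` or `5` modulo `8`

Let `A` be a Noetherian local domain of residue characteristic `2` (for instance the ring of
integers of a finite extension of `ℚ_2`), let `q` be a prime congruent to `3` or `5` modulo `8`, and
let `ρ : Gal(ℚbar/ℚ) → GL_2(A)` be continuous, unramified outside `2` and `q`, and such that the
semisimplification of its reduction is the sum of two copies of a character. Then up to scalars the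
image of `ρ` is equal to the image of every decomposition group at `2`; so if the restriction of
`ρ` to such a group is reducible then `ρ` is reducible.
-/

set_option autoImplicit false

open NumberField Matrix IsLocalRing

namespace Pool.Agent.Results.MP_b583a4_nt.DecompositionAtTwo

/-- `ρ` is unramified at all primes that do not lie above `p` or above a prime number in `S`. -/
def UnramifiedOutside {A : Type} [CommRing A] (p : ℕ) (S : Finset ℕ)
    (ρ : Gal(AlgebraicClosure ℚ/ℚ) →* GL (Fin 2) A) : Prop :=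
  ∀ P : Ideal (𝓞 (AlgebraicClosure ℚ)), P.IsMaximal →
    (∀ l ∈ S, (l : 𝓞 (AlgebraicClosure ℚ)) ∉ P) → (p : 𝓞 (AlgebraicClosure ℚ)) ∉ P →
      ∀ τ : Gal(AlgebraicClosure ℚ/ℚ), (∀ x : 𝓞 (AlgebraicClosure ℚ), τ • x - x ∈ P) → ρ τ = 1

/-- There is a character `a` with values in the residue field such that `a g` is the only
eigenvalue of the reduction of `ρ g`, for all `g`; by Brauer and Nesbitt this says that the
semisimplification of the reduction of `ρ` is the sum of two copies of `a`. -/
def ResiduallyScalar {A : Type} [CommRing A] [IsLocalRing A]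
    (ρ : Gal(AlgebraicClosure ℚ/ℚ) →* GL (Fin 2) A) : Prop :=
  ∃ a : Gal(AlgebraicClosure ℚ/ℚ) →* (ResidueField A)ˣ, ∀ g,
    IsNilpotent ((ρ g : Matrix (Fin 2) (Fin 2) A).map (residue A) -
      (a g : ResidueField A) • (1 : Matrix (Fin 2) (Fin 2) (ResidueField A)))

/-- The decomposition group at the prime ideal `P` of the ring of all algebraic integers. -/
def Decomposition (P : Ideal (𝓞 (AlgebraicClosure ℚ))) : Set Gal(AlgebraicClosure ℚ/ℚ) :=
  {g | ∀ x : 𝓞 (AlgebraicClosure ℚ), g • x ∈ P ↔ x ∈ P}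

/-- The elements of `D` preserve a common line over the field `L`; for `D` the whole group this says
that `ρ` is reducible over `L`. -/
def StableLine {A : Type} [CommRing A] (ρ : Gal(AlgebraicClosure ℚ/ℚ) →* GL (Fin 2) A)
    (L : Type) [Field L] [Algebra A L] (D : Set Gal(AlgebraicClosure ℚ/ℚ)) : Prop :=
  ∃ v : Fin 2 → L, v ≠ 0 ∧ ∀ g ∈ D, ∃ c : L,
    (ρ g : Matrix (Fin 2) (Fin 2) A).map (algebraMap A L) *ᵥ v = c • v

/-- The theorem. -/
theorem result (q : ℕ) (hq : q.Prime) (hq8 : q % 8 = 3 ∨ q % 8 = 5)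
    (A : Type) [CommRing A] [IsDomain A] [IsLocalRing A] [IsNoetherianRing A]
    [TopologicalSpace A] (hA : IsAdic (maximalIdeal A)) (h2 : (2 : A) ∈ maximalIdeal A)
    (L : Type) [Field L] [Algebra A L] [FaithfulSMul A L]
    (ρ : Gal(AlgebraicClosure ℚ/ℚ) →* GL (Fin 2) A) (hρ : Continuous ρ)
    (hur : UnramifiedOutside 2 {q} ρ) (hres : ResiduallyScalar ρ)
    (P : Ideal (𝓞 (AlgebraicClosure ℚ))) (hP : P.IsMaximal)
    (h2P : (2 : 𝓞 (AlgebraicClosure ℚ)) ∈ P) :
    (∀ g, ∃ h ∈ Decomposition P, ∃ c : A,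
      (ρ g : Matrix (Fin 2) (Fin 2) A) = c • (ρ h : Matrix (Fin 2) (Fin 2) A)) ∧
    (StableLine ρ L (Decomposition P) → StableLine ρ L Set.univ) :=
  Pool.Agent.X290.FM2.mainB q hq hq8 A hA h2 L ρ hρ hur hres P hP h2P

end Pool.Agent.Results.MP_b583a4_nt.DecompositionAtTwo
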