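import Pool.Agent.X290.FM2.Main2

/-!
# Two-dimensional even representations with scalar residual semisimplification, few ramified primes

Let `A` be a Noetherian local domain of residue characteristic `p` in which `2` is not `0` (for
instance the ring of integers of a finite extension of `ℚ_p`) and let
`ρ : Gal(ℚbar/ℚ) → GL_2(A)` be continuous, unramified outside `p` and a finite set `S` of primes,
and such that the semisimplification of its reduction is the sum of two copies of a character.
Assume that at most one member `l` of `S` is congruent to `1` modulo `p`, and that for this one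
`l - 1` is not divisible by `p ^ 2` if `p` is odd, and `l` is congruent to `3` or `5` modulo `8` if
`p = 2`. If `p = 2` assume also that `ρ` is even. Then `ρ` is reducible, or `p = 2` and the
projective image of `ρ` is finite.
-/

set_option autoImplicit false

open NumberField Matrix IsLocalRing

namespace Pool.Agent.Results.MP_b583a4_nt.FewRamifiedPrimes

/-- `ρ` is unramified at all primes that do not lie above `p` or above a prime number in `S`. -/
def UnramifiedOutside {A : Type} [CommRing A] (p : ℕ) (S : Finset ℕ)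
    (ρ : Gal(AlgebraicClosure ℚ/ℚ) →* GL (Fin 2) A) : Prop :=
  ∀ P : Ideal (𝓞 (AlgebraicClosure ℚ)), P.IsMaximal →
    (∀ l ∈ S, (l : 𝓞 (AlgebraicClosure ℚ)) ∉ P) → (p : 𝓞 (AlgebraicClosure ℚ)) ∉ P →
      ∀ τ : Gal(AlgebraicClosure ℚ/ℚ), (∀ x : 𝓞 (AlgebraicClosure ℚ), τ • x - x ∈ P) → ρ τ = 1

/-- There is a character `a` with values in the residue field such that `a g` is the only
eigenvalue of the reduction of `ρ g`, for all `g`; by Brauer and Nesbitt this says that the
semisimplification of the reduction of `ρ` is the sum of two copies of `a`. -/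
def ResiduallyScalar {A : Type} [CommRing A] [IsLocalRing A]
    (ρ : Gal(AlgebraicClosure ℚ/ℚ) →* GL (Fin 2) A) : Prop :=
  ∃ a : Gal(AlgebraicClosure ℚ/ℚ) →* (ResidueField A)ˣ, ∀ g,
    IsNilpotent ((ρ g : Matrix (Fin 2) (Fin 2) A).map (residue A) -
      (a g : ResidueField A) • (1 : Matrix (Fin 2) (Fin 2) (ResidueField A)))

/-- The matrices `ρ g` have a common eigenvector over `L`; for `L` algebraically closed this says
that `ρ` is not absolutely irreducible. -/
def Reducible {A : Type} [CommRing A] (ρ : Gal(AlgebraicClosure ℚ/ℚ) →* GL (Fin 2) A)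
    (L : Type) [Field L] [Algebra A L] : Prop :=
  ∃ v : Fin 2 → L, v ≠ 0 ∧ ∀ g, ∃ c : L,
    (ρ g : Matrix (Fin 2) (Fin 2) A).map (algebraMap A L) *ᵥ v = c • v

/-- The image of `ρ` modulo scalars is finite. -/
def FiniteProjectiveImage {A : Type} [CommRing A]
    (ρ : Gal(AlgebraicClosure ℚ/ℚ) →* GL (Fin 2) A) : Prop :=
  ∃ T : Finset Gal(AlgebraicClosure ℚ/ℚ), ∀ g, ∃ t ∈ T, ∃ c : A,
    (ρ g : Matrix (Fin 2) (Fin 2) A) = c • (ρ t : Matrix (Fin 2) (Fin 2) A)

/-- `c` is the complex conjugation for some embedding of the algebraic closure into `ℂ`. -/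
def IsComplexConjugation (c : Gal(AlgebraicClosure ℚ/ℚ)) : Prop :=
  ∃ φ : AlgebraicClosure ℚ →+* ℂ, ∀ x, φ (c x) = (starRingEnd ℂ) (φ x)

/-- The determinant of `ρ` is `1` at all complex conjugations. -/
def Even {A : Type} [CommRing A] (ρ : Gal(AlgebraicClosure ℚ/ℚ) →* GL (Fin 2) A) : Prop :=
  ∀ c, IsComplexConjugation c → (ρ c : Matrix (Fin 2) (Fin 2) A).det = 1

/-- The members of `S` congruent to `1` modulo `p`. -/
def Tame (p : ℕ) (S : Finset ℕ) : Finset ℕ := S.filter fun l => p ∣ l - 1

/-- The theorem. -/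
theorem result (p : ℕ) [Fact p.Prime] (S : Finset ℕ) (hS : ∀ l ∈ S, l.Prime ∧ l ≠ p)
    (hcard : (Tame p S).card ≤ 1)
    (hT : ∀ l ∈ Tame p S, (p ≠ 2 ∧ ¬ p ^ 2 ∣ l - 1) ∨ (p = 2 ∧ (l % 8 = 3 ∨ l % 8 = 5)))
    (A : Type) [CommRing A] [IsDomain A] [IsLocalRing A] [IsNoetherianRing A]
    [TopologicalSpace A] (hA : IsAdic (maximalIdeal A)) (hpA : (p : A) ∈ maximalIdeal A)
    (h2A : (2 : A) ≠ 0)
    (L : Type) [Field L] [IsAlgClosed L] [Algebra A L] [FaithfulSMul A L]
    (ρ : Gal(AlgebraicClosure ℚ/ℚ) →* GL (Fin 2) A) (hρ : Continuous ρ)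
    (hur : UnramifiedOutside p S ρ) (hres : ResiduallyScalar ρ) (hev : p = 2 → Even ρ) :
    Reducible ρ L ∨ (p = 2 ∧ FiniteProjectiveImage ρ) := by
  rcases Pool.Agent.X290.FM2.mainA p S hS hcard hT A hA hpA h2A L ρ hρ hur hres hev with h | h
  · obtain ⟨v, hv, h⟩ := h
    exact Or.inl ⟨v, hv, fun g => h g trivial⟩
  · exact Or.inr h

end Pool.Agent.Results.MP_b583a4_nt.FewRamifiedPrimes
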