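import Pool.Agent.X290.Reg.Fin
/-!
# `p`-adic representations unramified outside a regular prime `p`

Let `p` be a prime number such that the field of `p`-th roots of unity has no Galois extension of
`p`-power degree, other than itself, which is unramified at all finite primes; by class field theory
these are the regular primes, and the theorem proves this property for `p = 2, 3, 5, 7`. Let `A` be a
Noetherian local ring of residue characteristic `p` (for instance the ring of integers of a finite
extension of `ℚ_p`) and let `ρ : Gal(ℚbar/ℚ) → GL_n(A)` be continuous, unramified outside `p`, and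
such that the semisimplification of its reduction is a sum of characters over some extension of the
residue field. Then the image of `ρ` is equal to the image of every inertia group at `p`. So every
subspace which is stable under inertia at `p` is stable under the whole group.
-/

set_option autoImplicit false

open NumberField Matrix IsLocalRing Polynomial

namespace Pool.Agent.Results.MP_b583a4_nt.InertiaIsEverything

/-- If `K` is a number field generated by the `p`-th roots of unity, and `L/K` is a Galois extension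
of degree a power of `p` which is unramified at all maximal ideals, then `L` has degree `1` over
`K`. -/
def NoUnramified (p : ℕ) : Prop :=
  ∀ (K L : Type) [Field K] [NumberField K] [IsCyclotomicExtension {p} ℚ K] [Field L]
    [NumberField L] [Algebra K L] [IsGalois K L],
    (∀ (Q : Ideal (𝓞 L)) [Q.IsMaximal], Algebra.IsUnramifiedAt (𝓞 K) Q) →
      ∀ k : ℕ, Module.finrank K L = p ^ k → k = 0

/-- `ρ` is unramified at all primes that do not lie above `p`. -/
def UnramifiedOutside {A : Type} [CommRing A] {n : ℕ} (p : ℕ)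
    (ρ : Gal(AlgebraicClosure ℚ/ℚ) →* GL (Fin n) A) : Prop :=
  ∀ P : Ideal (𝓞 (AlgebraicClosure ℚ)), P.IsMaximal → (p : 𝓞 (AlgebraicClosure ℚ)) ∉ P →
    ∀ τ : Gal(AlgebraicClosure ℚ/ℚ), (∀ x : 𝓞 (AlgebraicClosure ℚ), τ • x - x ∈ P) → ρ τ = 1

/-- There are an extension `k` of the residue field and characters `χ 1, ..., χ n` with values in
`k` such that the characteristic polynomial of the reduction of `ρ g` is the product of the
`X - χ i g`, for all `g`; by Brauer and Nesbitt this says that the semisimplification of the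
reduction of `ρ` over `k` is the sum of the characters `χ i`. -/
def ResiduallyCharacters {A : Type} [CommRing A] [IsLocalRing A] {n : ℕ}
    (ρ : Gal(AlgebraicClosure ℚ/ℚ) →* GL (Fin n) A) : Prop :=
  ∃ (k : Type) (_ : Field k) (_ : Algebra (ResidueField A) k)
    (χ : Fin n → (Gal(AlgebraicClosure ℚ/ℚ) →* kˣ)), ∀ g,
      (((ρ g : Matrix (Fin n) (Fin n) A).map (residue A)).map
        (algebraMap (ResidueField A) k)).charpoly = ∏ i, (X - C ((χ i g : kˣ) : k))

/-- The inertia group at the prime ideal `P` of the ring of all algebraic integers. -/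
def Inertia (P : Ideal (𝓞 (AlgebraicClosure ℚ))) : Set Gal(AlgebraicClosure ℚ/ℚ) :=
  {τ | ∀ x : 𝓞 (AlgebraicClosure ℚ), τ • x - x ∈ P}

/-- The elements of `D` preserve the subspace `W`. -/
def Stable {A : Type} [CommRing A] {n : ℕ} (ρ : Gal(AlgebraicClosure ℚ/ℚ) →* GL (Fin n) A)
    {L : Type} [Field L] [Algebra A L] (W : Submodule L (Fin n → L))
    (D : Set Gal(AlgebraicClosure ℚ/ℚ)) : Prop :=
  ∀ g ∈ D, ∀ w ∈ W, (ρ g : Matrix (Fin n) (Fin n) A).map (algebraMap A L) *ᵥ w ∈ W

/-- The theorem. -/
theorem result :
    (∀ p : ℕ, p.Prime → NoUnramified p →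
      ∀ (n : ℕ) (A : Type) [CommRing A] [IsLocalRing A] [IsNoetherianRing A] [TopologicalSpace A],
        IsAdic (maximalIdeal A) → (p : A) ∈ maximalIdeal A →
      ∀ ρ : Gal(AlgebraicClosure ℚ/ℚ) →* GL (Fin n) A, Continuous ρ → UnramifiedOutside p ρ →
        ResiduallyCharacters ρ →
      ∀ P : Ideal (𝓞 (AlgebraicClosure ℚ)), P.IsMaximal → (p : 𝓞 (AlgebraicClosure ℚ)) ∈ P →
        (∀ g, ∃ h ∈ Inertia P, ρ h = ρ g) ∧
        ∀ (L : Type) [Field L] [Algebra A L] (W : Submodule L (Fin n → L)),
          Stable ρ W (Inertia P) → Stable ρ W Set.univ) ∧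
    NoUnramified 2 ∧ NoUnramified 3 ∧ NoUnramified 5 ∧ NoUnramified 7 := by
  refine ⟨?_, Pool.Agent.X290.Reg.noUnr2, Pool.Agent.X290.Reg.noUnr3, Pool.Agent.X290.Reg.noUnr5,
    Pool.Agent.X290.Reg.noUnr7⟩
  intro p hp hNU n A _ _ _ _ hA hpA ρ hρ hur hres P hP hpP
  have hpf : Fact p.Prime := ⟨hp⟩
  have h1 : ∀ g, ∃ h ∈ Inertia P, ρ h = ρ g := fun g =>
    Pool.Agent.X290.Reg.main2 hNU hA hpA ρ hρ hur hres hP hpP g
  refine ⟨h1, ?_⟩
  intro L _ _ W hW g _ w hw
  obtain ⟨h, hh, e⟩ := h1 g
  rw [← e]
  exact hW h hh w hw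

end Pool.Agent.Results.MP_b583a4_nt.InertiaIsEverything
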